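import Pool.Graph.R_pool_sql_team_seeded_b0a926ef.R352.CC.Det

/-! Permanents and determinants of `t I + W` for `W j k = x k / (x k - x j)`. -/

namespace Pool.Agent.H97.DS

open Finset Equiv Pool.Agent.R352.CC

/-- permanent and determinant sums vanish for an odd number of points -/
theorem odd_zero {K : Type*} [Field K] (n : ℕ) : ∀ (α : Type) [Fintype α] [DecidableEq α] (x : α → K), Function.Injective x →
    Fintype.card α = 2 * n + 1 → PA x = 0 ∧ PD x = 0 := by
  induction n with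
  | zero =>
    intro α _ _ x hx hc
    have hz : ∀ τ : Perm α, wt x τ = 0 := fun τ => by
      obtain ⟨a, ha⟩ := Fintype.card_eq_one_iff.1 (by simpa using hc)
      refine prod_eq_zero (mem_univ a) ?_
      rw [ha (τ a), sub_self, inv_zero]
    simp [PA, PD, hz]
  | succ n ih =>
    intro α _ _ x hx hc
    have hne : Nonempty α := Fintype.card_pos_iff.1 (by omega)
    obtain ⟨a⟩ := hne
    let e : Option {b // b ≠ a} ≃ α := Equiv.optionSubtypeNe a
    have key : ∀ j : {b // b ≠ a}, PA (fun k : {k // k ≠ j} => (x ∘ e) (some k)) = 0 ∧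
        PD (fun k : {k // k ≠ j} => (x ∘ e) (some k)) = 0 := fun j => by
      refine ih {k // k ≠ j} _ ?_ ?_
      · intro k k' hkk
        have := e.injective (hx hkk)
        exact Subtype.ext (Option.some_injective _ this)
      · have h1 : Fintype.card {k : {b // b ≠ a} // k ≠ j} = Fintype.card {b // b ≠ a} - 1 := Set.card_ne_eq j
        have h2 : Fintype.card {b // b ≠ a} = Fintype.card α - 1 := Set.card_ne_eq a
        rw [h1, h2, hc]
        omega
    rw [PD_congr e x, PA_congr e x, PD_rec _ (hx.comp e.injective), PA_rec _ (hx.comp e.injective)]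
    constructor
    · rw [neg_eq_zero]
      exact sum_eq_zero fun j _ => by rw [(key j).1, mul_zero]
    · exact sum_eq_zero fun j _ => by rw [(key j).2, mul_zero]

section

variable {α : Type} [Fintype α] [DecidableEq α]

/-- the expansion of a permanent or a determinant of `t I + W` -/
theorem expand (ε : Perm α → ℂ) (w : α → α → ℂ) (t : ℂ) :
    ∑ τ : Perm α, ε τ * ∏ j, ((if τ j = j then t else 0) + w j (τ j)) =
      ∑ T : Finset α, t ^ T.card * ∑ σ : Perm {k // k ∉ T}, ε (Perm.ofSubtype σ) *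
        ∏ k : {k // k ∉ T}, w k (σ k) := by
  have h1 : ∀ τ : Perm α, ε τ * ∏ j, ((if τ j = j then t else 0) + w j (τ j)) =
      ∑ T : Finset α, (if ∀ a, ¬ (a ∉ T) → τ a = a then
        t ^ T.card * (ε τ * ∏ k : {k // k ∉ T}, w k (τ k)) else 0) := fun τ => by
    rw [prod_add, mul_sum, powerset_univ]
    refine sum_congr rfl fun T _ => ?_
    have h2 : ∏ j ∈ univ \ T, w j (τ j) = ∏ k : {k // k ∉ T}, w k (τ k) :=
      prod_subtype (univ \ T) (p := fun k => k ∉ T) (by simp) fun k => w k (τ k)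
    rw [h2]
    split_ifs with h
    · have h3 : ∏ j ∈ T, (if τ j = j then t else 0) = t ^ T.card := by
        rw [prod_congr rfl fun j hj => if_pos (h j (not_not.2 hj)), prod_const]
      rw [h3]
      ring
    · push Not at h
      obtain ⟨a, ha, hne⟩ := h
      have h3 : ∏ j ∈ T, (if τ j = j then t else 0) = 0 :=
        prod_eq_zero ha (if_neg hne)
      rw [h3]
      ring
  simp only [h1]
  rw [sum_comm]
  refine sum_congr rfl fun T _ => ?_
  rw [← sum_filter]
  let e := Perm.subtypeEquivSubtypePerm (fun k => k ∉ T)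
  have h2 : ∀ τ : Perm α, τ ∈ univ.filter (fun τ : Perm α => ∀ a, ¬ (a ∉ T) → τ a = a) ↔
      ∀ a, ¬ (a ∉ T) → τ a = a := by
    intro τ
    simp
  rw [sum_subtype _ h2, ← e.sum_comp, mul_sum]
  refine sum_congr rfl fun σ _ => ?_
  congr 2
  refine prod_congr rfl fun k _ => ?_
  have : (e σ : Perm α) = Perm.ofSubtype σ := rfl
  rw [this, Perm.ofSubtype_apply_coe]

theorem expand_wt (x : α → ℂ) (T : Finset α) (σ : Perm {k // k ∉ T}) :
    ∏ k : {k // k ∉ T}, x (σ k) * (x (σ k) - x k)⁻¹ =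
      (∏ k : {k // k ∉ T}, x k) * wt (fun k : {k // k ∉ T} => x k) σ := by
  rw [prod_mul_distrib, Equiv.prod_comp σ (fun k : {k // k ∉ T} => x k)]
  rfl

theorem per_det (x : α → ℂ) (hx : Function.Injective x) (t : ℂ) :
    ∑ τ : Perm α, ((Perm.sign τ : ℤ) : ℂ) * ∏ j, ((if τ j = j then Complex.I * t else 0) +
        x (τ j) * (x (τ j) - x j)⁻¹) =
      Complex.I ^ Fintype.card α * ∑ τ : Perm α, ∏ j, ((if τ j = j then t else 0) +
        x (τ j) * (x (τ j) - x j)⁻¹) := by
  have h0 : ∑ τ : Perm α, ∏ j, ((if τ j = j then t else 0) + x (τ j) * (x (τ j) - x j)⁻¹) =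
      ∑ τ : Perm α, (fun _ : Perm α => (1 : ℂ)) τ * ∏ j, ((if τ j = j then t else 0) +
        (fun a b => x b * (x b - x a)⁻¹) j (τ j)) :=
    sum_congr rfl fun τ _ => by simp only [one_mul]
  rw [h0, expand (fun _ => 1) (fun a b => x b * (x b - x a)⁻¹) t,
    expand (fun τ => ((Perm.sign τ : ℤ) : ℂ)) (fun a b => x b * (x b - x a)⁻¹) (Complex.I * t), mul_sum]
  refine sum_congr rfl fun T _ => ?_
  have hinj : Function.Injective (fun k : {k // k ∉ T} => x k) := hx.comp Subtype.val_injective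
  have hA : ∑ σ : Perm {k // k ∉ T}, (1 : ℂ) * ∏ k : {k // k ∉ T}, x (σ k) * (x (σ k) - x k)⁻¹ =
      (∏ k : {k // k ∉ T}, x k) * PA (fun k : {k // k ∉ T} => x k) := by
    rw [PA, mul_sum]
    exact sum_congr rfl fun σ _ => by rw [expand_wt, one_mul]
  have hD : ∑ σ : Perm {k // k ∉ T}, ((Perm.sign (Perm.ofSubtype σ) : ℤ) : ℂ) *
      ∏ k : {k // k ∉ T}, x (σ k) * (x (σ k) - x k)⁻¹ =
      (∏ k : {k // k ∉ T}, x k) * PD (fun k : {k // k ∉ T} => x k) := by
    rw [PD, mul_sum]
    refine sum_congr rfl fun σ _ => ?_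
    rw [expand_wt, Perm.sign_ofSubtype]
    ring
  rw [hA, hD]
  have hcard : Fintype.card {k // k ∉ T} + T.card = Fintype.card α := by
    have h1 : Fintype.card {k // k ∉ T} = (univ \ T : Finset α).card := by
      rw [Fintype.card_subtype]
      congr 1
      ext k
      simp
    rw [h1, card_sdiff_of_subset (subset_univ T), card_univ]
    exact Nat.sub_add_cancel (card_le_univ T)
  rcases Nat.even_or_odd' (Fintype.card {k // k ∉ T}) with ⟨m, h | h⟩
  · rw [PD_eq m _ _ hinj h, ← hcard, h, pow_add, pow_mul, Complex.I_sq, mul_pow]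
    ring
  · rw [(odd_zero m _ _ hinj h).1, (odd_zero m _ _ hinj h).2]
    ring

end

section
variable {n : ℕ} [NeZero n] {ζ : ℂ}

theorem det_shift (hz : IsPrimitiveRoot ζ n) (u : ℂ) :
    (u • (1 : Matrix (Fin n) (Fin n) ℂ) + A n ζ).det = ∏ s : Fin n, (u + (((n : ℂ) - 1) / 2 - s)) := by
  have h0 : (u • (1 : Matrix (Fin n) (Fin n) ℂ) + A n ζ) * Matrix.vandermonde (G ζ) =
      Matrix.vandermonde (G ζ) * Matrix.diagonal (fun s : Fin n => u + mu n ζ s) := by
    rw [add_mul, A_mul hz.pow_eq_one]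
    ext j s
    rw [Matrix.add_apply, Matrix.mul_diagonal, Matrix.mul_diagonal, Matrix.smul_mul, Matrix.one_mul,
      Matrix.smul_apply, smul_eq_mul]
    ring
  have h1 := congrArg Matrix.det h0
  rw [Matrix.det_mul, Matrix.det_mul, Matrix.det_diagonal, mul_comm] at h1
  have hV : (Matrix.vandermonde (G (n := n) ζ)).det ≠ 0 := by
    rw [Matrix.det_vandermonde_ne_zero_iff]
    intro a b hab
    exact Fin.ext (hz.pow_inj a.2 b.2 hab)
  have h2 := mul_left_cancel₀ hV h1
  rw [h2]
  exact prod_congr rfl fun s _ => by rw [mu_eq hz s s.2]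

theorem entryA (h : ζ ^ n = 1) (j k : Fin n) :
    A n ζ j k = G ζ k * (G ζ k - G ζ j)⁻¹ := by
  have hk := G_ne h k
  rw [A, G_sub h]
  have h1 : 1 - G ζ j * (G ζ k)⁻¹ = (G ζ k - G ζ j) / G ζ k := by field_simp
  rw [h1, inv_div, div_eq_mul_inv]

/-- the permanent of `t I + A` -/
theorem per_eq (hz : IsPrimitiveRoot ζ n) (t : ℂ) :
    ∑ τ : Perm (Fin n), ∏ j, ((if τ j = j then t else 0) + G ζ (τ j) * (G ζ (τ j) - G ζ j)⁻¹) =
      ∏ s : Fin n, (t + (s - ((n : ℂ) - 1) / 2) * Complex.I) := by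
  have h := hz.pow_eq_one
  have hinj : Function.Injective (G (n := n) ζ) := by
    intro a b hab
    exact Fin.ext (hz.pow_inj a.2 b.2 hab)
  have h1 := per_det (G (n := n) ζ) hinj t
  have h2 := det_shift (n := n) hz (Complex.I * t)
  rw [← Matrix.det_transpose, Matrix.det_apply'] at h2
  have h3 : ∑ τ : Perm (Fin n), ((Perm.sign τ : ℤ) : ℂ) *
      ∏ i, (((Complex.I * t) • (1 : Matrix (Fin n) (Fin n) ℂ) + A n ζ).transpose (τ i) i) =
      ∑ τ : Perm (Fin n), ((Perm.sign τ : ℤ) : ℂ) * ∏ j, ((if τ j = j then Complex.I * t else 0) +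
        G ζ (τ j) * (G ζ (τ j) - G ζ j)⁻¹) := by
    refine sum_congr rfl fun τ _ => ?_
    congr 1
    refine prod_congr rfl fun j _ => ?_
    rw [Matrix.transpose_apply, Matrix.add_apply, Matrix.smul_apply, entryA h, Matrix.one_apply, smul_eq_mul]
    congr 1
    by_cases hj : τ j = j
    · rw [if_pos hj, if_pos hj.symm, mul_one]
    · rw [if_neg hj, if_neg (Ne.symm hj), mul_zero]
  rw [h3, h1, Fintype.card_fin] at h2
  have hI : (Complex.I ^ n : ℂ) ≠ 0 := pow_ne_zero _ Complex.I_ne_zero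
  refine mul_left_cancel₀ hI ?_
  rw [h2]
  have h4 : (Complex.I ^ n : ℂ) = ∏ _s : Fin n, Complex.I := by simp
  rw [h4, ← prod_mul_distrib]
  refine prod_congr rfl fun s _ => ?_
  have := Complex.I_mul_I
  linear_combination (-((s : ℂ) - ((n : ℂ) - 1) / 2)) * this

end

end Pool.Agent.H97.DS
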